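import Mathlib

set_option autoImplicit false

/-! # Local solvability of `a x + b y + c z = d` in units -/

namespace Pool.Agent.N395.TF

lemma two {K : Type} [Field K] (h3 : ∀ D : K, ∃ u : K, u ≠ 0 ∧ u ≠ D) (A B D : K) (hA : A ≠ 0)
    (hB : B ≠ 0) : ∃ x y : K, x ≠ 0 ∧ y ≠ 0 ∧ A * x + B * y = D := by
  obtain ⟨u, hu0, huD⟩ := h3 D
  refine ⟨u / A, (D - u) / B, div_ne_zero hu0 hA, div_ne_zero (sub_ne_zero.mpr huD.symm) hB, ?_⟩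
  field_simp
  ring

lemma three {K : Type} [Field K] (h3 : ∀ D : K, ∃ u : K, u ≠ 0 ∧ u ≠ D) (A B C D : K)
    (h1 : ¬ (A = 0 ∧ B = 0 ∧ C = 0)) (h2 : ¬ (D = 0 ∧ A = 0 ∧ B = 0))
    (h3' : ¬ (D = 0 ∧ A = 0 ∧ C = 0)) (h4 : ¬ (D = 0 ∧ B = 0 ∧ C = 0)) :
    ∃ x y z : K, x ≠ 0 ∧ y ≠ 0 ∧ z ≠ 0 ∧ A * x + B * y + C * z = D := by
  by_cases hA : A = 0
  · subst hA
    by_cases hB : B = 0
    · subst hB
      have hC : C ≠ 0 := fun h => h1 ⟨rfl, rfl, h⟩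
      have hD : D ≠ 0 := fun h => h2 ⟨h, rfl, rfl⟩
      exact ⟨1, 1, D / C, one_ne_zero, one_ne_zero, div_ne_zero hD hC, by field_simp; ring⟩
    · by_cases hC : C = 0
      · subst hC
        have hD : D ≠ 0 := fun h => h3' ⟨h, rfl, rfl⟩
        exact ⟨1, D / B, 1, one_ne_zero, div_ne_zero hD hB, one_ne_zero, by field_simp; ring⟩
      · obtain ⟨y, z, hy, hz, h⟩ := two h3 B C D hB hC
        exact ⟨1, y, z, one_ne_zero, hy, hz, by rw [zero_mul, zero_add]; exact h⟩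
  · by_cases hB : B = 0
    · subst hB
      by_cases hC : C = 0
      · subst hC
        have hD : D ≠ 0 := fun h => h4 ⟨h, rfl, rfl⟩
        exact ⟨D / A, 1, 1, div_ne_zero hD hA, one_ne_zero, one_ne_zero, by field_simp; ring⟩
      · obtain ⟨x, z, hx, hz, h⟩ := two h3 A C D hA hC
        exact ⟨x, 1, z, hx, one_ne_zero, hz, by rw [zero_mul, add_zero]; exact h⟩
    · obtain ⟨x, y, hx, hy, h⟩ := two h3 A B (D - C) hA hB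
      exact ⟨x, y, 1, hx, hy, one_ne_zero, by rw [h]; ring⟩

/-- one prime -/
lemma loc (l : ℕ) (hl : l.Prime) (a b c d : ℤ) (hpar : Even (a + b + c - d))
    (h1 : ¬ ((l : ℤ) ∣ a ∧ (l : ℤ) ∣ b ∧ (l : ℤ) ∣ c))
    (h2 : ¬ ((l : ℤ) ∣ d ∧ (l : ℤ) ∣ a ∧ (l : ℤ) ∣ b))
    (h3 : ¬ ((l : ℤ) ∣ d ∧ (l : ℤ) ∣ a ∧ (l : ℤ) ∣ c))
    (h4 : ¬ ((l : ℤ) ∣ d ∧ (l : ℤ) ∣ b ∧ (l : ℤ) ∣ c)) :
    ∃ x y z : ZMod l, x ≠ 0 ∧ y ≠ 0 ∧ z ≠ 0 ∧ (a : ZMod l) * x + b * y + c * z = d := by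
  have : Fact l.Prime := ⟨hl⟩
  have hz : ∀ t : ℤ, (t : ZMod l) = 0 ↔ (l : ℤ) ∣ t := fun t => ZMod.intCast_zmod_eq_zero_iff_dvd t l
  by_cases h2l : l = 2
  · subst h2l
    refine ⟨1, 1, 1, one_ne_zero, one_ne_zero, one_ne_zero, ?_⟩
    have h5 : ((a + b + c - d : ℤ) : ZMod 2) = 0 := by
      rw [hz]
      exact_mod_cast hpar.two_dvd
    push_cast at h5
    rw [mul_one, mul_one, mul_one]
    exact sub_eq_zero.mp h5
  · refine three ?_ _ _ _ _ ?_ ?_ ?_ ?_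
    · intro D
      by_contra hcon
      push Not at hcon
      have h6 : (Finset.univ : Finset (ZMod l)) ⊆ {0, D} := by
        intro u _
        by_cases hu : u = 0
        · simp [hu]
        · simp [hcon u hu]
      have h7 := Finset.card_le_card h6
      have h8 : ({0, D} : Finset (ZMod l)).card ≤ 2 := Finset.card_le_two
      rw [Finset.card_univ, ZMod.card] at h7
      have h9 := hl.two_le
      omega
    · rintro ⟨e1, e2, e3⟩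
      exact h1 ⟨(hz _).mp e1, (hz _).mp e2, (hz _).mp e3⟩
    · rintro ⟨e1, e2, e3⟩
      exact h2 ⟨(hz _).mp e1, (hz _).mp e2, (hz _).mp e3⟩
    · rintro ⟨e1, e2, e3⟩
      exact h3 ⟨(hz _).mp e1, (hz _).mp e2, (hz _).mp e3⟩
    · rintro ⟨e1, e2, e3⟩
      exact h4 ⟨(hz _).mp e1, (hz _).mp e2, (hz _).mp e3⟩

/-- prescribed residues, representatives in `[1, P]` -/
lemma crt (Q : ℕ) (r : ℕ → ℕ) :
    ∃ x : ℕ, (1 ≤ x ∧ x ≤ ∏ l ∈ Q.primeFactors, l) ∧ ∀ l ∈ Q.primeFactors, x ≡ r l [MOD l] := by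
  have hpp : Set.Pairwise (↑Q.primeFactors : Set ℕ)
      (Function.onFun Nat.Coprime (fun l : ℕ => l)) := by
    intro a ha b hb hab
    rw [Finset.mem_coe, Nat.mem_primeFactors] at ha hb
    exact (Nat.coprime_primes ha.1 hb.1).2 hab
  have hnz : ∀ i ∈ Q.primeFactors, (fun l : ℕ => l) i ≠ 0 :=
    fun i hi => (Nat.prime_of_mem_primeFactors hi).ne_zero
  obtain ⟨x, hx⟩ := Nat.chineseRemainderOfFinset r (fun l : ℕ => l) Q.primeFactors hnz hpp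
  set P := ∏ l ∈ Q.primeFactors, l with hP
  have hP0 : 0 < P := Finset.prod_pos fun l hl => (Nat.prime_of_mem_primeFactors hl).pos
  have hdvd : ∀ l ∈ Q.primeFactors, l ∣ P := fun l hl => Finset.dvd_prod_of_mem _ hl
  by_cases h0 : x % P = 0
  · refine ⟨P, ⟨hP0, le_rfl⟩, fun l hl => ?_⟩
    have h1 : P ≡ x [MOD P] := by
      show P % P = x % P
      rw [Nat.mod_self, h0]
    exact (h1.of_dvd (hdvd l hl)).trans (hx l hl)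
  · refine ⟨x % P, ⟨Nat.one_le_iff_ne_zero.mpr h0, (Nat.mod_lt x hP0).le⟩, fun l hl => ?_⟩
    exact ((Nat.mod_modEq x P).of_dvd (hdvd l hl)).trans (hx l hl)

theorem local3 (Q : ℕ) (hQ : 0 < Q) (a b c d : ℤ) (hpar : Even (a + b + c - d))
    (h1 : ∀ l : ℕ, l.Prime → ¬ ((l : ℤ) ∣ a ∧ (l : ℤ) ∣ b ∧ (l : ℤ) ∣ c))
    (h2 : ∀ l : ℕ, l.Prime → ¬ ((l : ℤ) ∣ d ∧ (l : ℤ) ∣ a ∧ (l : ℤ) ∣ b))
    (h3 : ∀ l : ℕ, l.Prime → ¬ ((l : ℤ) ∣ d ∧ (l : ℤ) ∣ a ∧ (l : ℤ) ∣ c))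
    (h4 : ∀ l : ℕ, l.Prime → ¬ ((l : ℤ) ∣ d ∧ (l : ℤ) ∣ b ∧ (l : ℤ) ∣ c)) :
    ∃ x y z : ℕ, (1 ≤ x ∧ x ≤ ∏ l ∈ Q.primeFactors, l) ∧ (1 ≤ y ∧ y ≤ ∏ l ∈ Q.primeFactors, l) ∧
      (1 ≤ z ∧ z ≤ ∏ l ∈ Q.primeFactors, l) ∧
      (((∏ l ∈ Q.primeFactors, l : ℕ) : ℤ) ∣ a * x + b * y + c * z - d) ∧
      (∀ n : ℕ, n ≡ x [MOD ∏ l ∈ Q.primeFactors, l] → Nat.Coprime n Q) ∧
      (∀ n : ℕ, n ≡ y [MOD ∏ l ∈ Q.primeFactors, l] → Nat.Coprime n Q) ∧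
      (∀ n : ℕ, n ≡ z [MOD ∏ l ∈ Q.primeFactors, l] → Nat.Coprime n Q) := by
  have hloc : ∀ l : ℕ, ∃ x y z : ℕ, l.Prime → (x : ZMod l) ≠ 0 ∧ (y : ZMod l) ≠ 0 ∧
      (z : ZMod l) ≠ 0 ∧ (a : ZMod l) * x + b * y + c * z = d := by
    intro l
    by_cases hl : l.Prime
    · have : Fact l.Prime := ⟨hl⟩
      obtain ⟨x, y, z, hx, hy, hz, h⟩ := loc l hl a b c d hpar (h1 l hl) (h2 l hl) (h3 l hl)
        (h4 l hl)
      refine ⟨x.val, y.val, z.val, fun _ => ?_⟩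
      simp only [ZMod.natCast_val, ZMod.cast_id', id_eq]
      exact ⟨hx, hy, hz, h⟩
    · exact ⟨0, 0, 0, fun h => absurd h hl⟩
  choose X Y Z hXYZ using hloc
  obtain ⟨x, hx, hx2⟩ := crt Q X
  obtain ⟨y, hy, hy2⟩ := crt Q Y
  obtain ⟨z, hz, hz2⟩ := crt Q Z
  have hcop : ∀ (t : ℕ) (T : ℕ → ℕ), (∀ l ∈ Q.primeFactors, t ≡ T l [MOD l]) →
      (∀ l : ℕ, l.Prime → ((T l : ℕ) : ZMod l) ≠ 0) →
      ∀ n : ℕ, n ≡ t [MOD ∏ l ∈ Q.primeFactors, l] → Nat.Coprime n Q := by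
    intro t T hT hT0 n hn
    refine Nat.Coprime.symm (Nat.coprime_of_dvd ?_)
    intro l hl hlQ hln
    have hmem : l ∈ Q.primeFactors := Nat.mem_primeFactors.mpr ⟨hl, hlQ, hQ.ne'⟩
    have e1 : n ≡ T l [MOD l] := (hn.of_dvd (Finset.dvd_prod_of_mem _ hmem)).trans (hT l hmem)
    have e2 : ((n : ℕ) : ZMod l) = ((T l : ℕ) : ZMod l) := (ZMod.natCast_eq_natCast_iff _ _ _).mpr e1
    apply hT0 l hl
    rw [← e2]
    exact (ZMod.natCast_eq_zero_iff _ _).mpr hln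
  refine ⟨x, y, z, hx, hy, hz, ?_, hcop x X hx2 (fun l hl => (hXYZ l hl).1),
    hcop y Y hy2 (fun l hl => (hXYZ l hl).2.1), hcop z Z hz2 (fun l hl => (hXYZ l hl).2.2.1)⟩
  rw [Int.natCast_dvd]
  refine Finset.prod_primes_dvd _ (fun l hl => (Nat.prime_of_mem_primeFactors hl).prime)
    (fun l hl => ?_)
  have hlp := Nat.prime_of_mem_primeFactors hl
  rw [← Int.natCast_dvd, ← ZMod.intCast_zmod_eq_zero_iff_dvd]
  push_cast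
  have ex : ((x : ℕ) : ZMod l) = X l := (ZMod.natCast_eq_natCast_iff _ _ _).mpr (hx2 l hl)
  have ey : ((y : ℕ) : ZMod l) = Y l := (ZMod.natCast_eq_natCast_iff _ _ _).mpr (hy2 l hl)
  have ez : ((z : ℕ) : ZMod l) = Z l := (ZMod.natCast_eq_natCast_iff _ _ _).mpr (hz2 l hl)
  rw [ex, ey, ez, (hXYZ l hlp).2.2.2, sub_self]

end Pool.Agent.N395.TF
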